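import Mathlib

/-!
# Levine's hat game with signals: the bound for product measures

`P π` is a product probability on `ι → Γ`. If the densities `z j` are at most `B` and no label is
almost surely black for many classes (`hβ`), then the team loses with high probability.
-/

set_option autoImplicit false

open Finset

namespace Pool.Agent.VB

variable {ι : Type} [Fintype ι] [DecidableEq ι] {Γ : Type} [Fintype Γ] [DecidableEq Γ]

/-- product weight -/
noncomputable def P (π : ι → Γ → ℝ) (c : ι → Γ) : ℝ := ∏ j, π j (c j)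

theorem P_nonneg {π : ι → Γ → ℝ} (h0 : ∀ j c, 0 ≤ π j c) (c : ι → Γ) : 0 ≤ P π c :=
  Finset.prod_nonneg fun j _ => h0 j _

theorem sum_P {π : ι → Γ → ℝ} (h1 : ∀ j, ∑ a, π j a = 1) : ∑ c, P π c = 1 := by
  have h := Finset.prod_univ_sum (fun _ : ι => (univ : Finset Γ)) (fun j a => π j a)
  rw [Fintype.piFinset_univ] at h
  unfold P
  rw [← h]
  exact Finset.prod_eq_one fun j _ => h1 j

theorem P_update (π : ι → Γ → ℝ) (c : ι → Γ) (j : ι) (a : Γ) :
    P π (Function.update c j a) * π j (c j) = P π c * π j a := by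
  unfold P
  rw [← Finset.mul_prod_erase univ (fun i => π i (Function.update c j a i)) (Finset.mem_univ j),
    ← Finset.mul_prod_erase univ (fun i => π i (c i)) (Finset.mem_univ j)]
  have h : ∏ i ∈ univ.erase j, π i (Function.update c j a i) = ∏ i ∈ univ.erase j, π i (c i) := by
    refine Finset.prod_congr rfl fun i hi => ?_
    rw [Function.update_of_ne (Finset.ne_of_mem_erase hi)]
  rw [h]
  simp only [Function.update_self]
  ring

/-- the coordinate `j` may be resampled -/
theorem resample {π : ι → Γ → ℝ} (h1 : ∀ j, ∑ a, π j a = 1) (j : ι) (h : (ι → Γ) → ℝ) :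
    ∑ c, P π c * ∑ a, π j a * h (Function.update c j a) = ∑ c, P π c * h c := by
  let φ : (ι → Γ) × Γ → (ι → Γ) × Γ := fun p => (Function.update p.1 j p.2, p.1 j)
  have hφ : Function.Involutive φ := by
    rintro ⟨c, a⟩
    simp only [φ]
    refine Prod.ext ?_ ?_
    · funext i
      by_cases hi : i = j
      · subst hi
        simp
      · simp [Function.update_of_ne hi]
    · simp
  have e1 : ∑ c, P π c * ∑ a, π j a * h (Function.update c j a) =
      ∑ p : (ι → Γ) × Γ, P π p.1 * (π j p.2 * h (Function.update p.1 j p.2)) := by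
    rw [Fintype.sum_prod_type]
    exact Finset.sum_congr rfl fun c _ => Finset.mul_sum _ _ _
  have e2 : ∑ p : (ι → Γ) × Γ, P π p.1 * (π j p.2 * h (Function.update p.1 j p.2)) =
      ∑ p : (ι → Γ) × Γ, P π (φ p).1 * (π j (φ p).2 * h (φ p).1) := by
    refine Finset.sum_congr rfl fun p _ => ?_
    have := P_update π p.1 j p.2
    simp only [φ]
    calc P π p.1 * (π j p.2 * h (Function.update p.1 j p.2))
        = (P π p.1 * π j p.2) * h (Function.update p.1 j p.2) := by ring
      _ = (P π (Function.update p.1 j p.2) * π j (p.1 j)) * h (Function.update p.1 j p.2) := by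
          rw [this]
      _ = _ := by ring
  have e3 : ∑ p : (ι → Γ) × Γ, P π (φ p).1 * (π j (φ p).2 * h (φ p).1) =
      ∑ p : (ι → Γ) × Γ, P π p.1 * (π j p.2 * h p.1) :=
    Equiv.sum_comp (hφ.toPerm φ) fun p => P π p.1 * (π j p.2 * h p.1)
  rw [e1, e2, e3, Fintype.sum_prod_type]
  refine Finset.sum_congr rfl fun c _ => ?_
  simp only
  rw [← Finset.mul_sum, ← Finset.sum_mul, h1 j, one_mul]

/-- mean of a function of one coordinate -/
theorem mean_one {π : ι → Γ → ℝ} (h1 : ∀ j, ∑ a, π j a = 1) (j : ι) (u : Γ → ℝ) :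
    ∑ c, P π c * u (c j) = ∑ a, π j a * u a := by
  rw [← resample h1 j fun c => u (c j)]
  simp only [Function.update_self]
  rw [← Finset.sum_mul, sum_P h1, one_mul]

/-- independence -/
theorem mean_two {π : ι → Γ → ℝ} (h1 : ∀ j, ∑ a, π j a = 1) {i j : ι} (hij : i ≠ j)
    (u v : Γ → ℝ) (hv : ∑ a, π j a * v a = 0) :
    ∑ c, P π c * (u (c i) * v (c j)) = 0 := by
  rw [← resample h1 j fun c => u (c i) * v (c j)]
  refine Finset.sum_eq_zero fun c _ => ?_
  have : ∑ a, π j a * (u (Function.update c j a i) * v (Function.update c j a j)) =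
      u (c i) * ∑ a, π j a * v a := by
    rw [Finset.mul_sum]
    refine Finset.sum_congr rfl fun a _ => ?_
    rw [Function.update_self, Function.update_of_ne hij]
    ring
  rw [this, hv, mul_zero, mul_zero]

/-- `N (1-θ)^N ≤ 1/θ` -/
theorem pow_bound {θ : ℝ} (h0 : 0 < θ) (h1 : θ ≤ 1) (N : ℕ) : (N : ℝ) * (1 - θ) ^ N ≤ 1 / θ := by
  have h2 : (1 - θ) ^ N * (1 + θ) ^ N ≤ 1 := by
    rw [← mul_pow]
    apply pow_le_one₀
    · have : 0 ≤ 1 - θ := by linarith
      positivity
    · nlinarith
  have h3 : 1 + (N : ℝ) * θ ≤ (1 + θ) ^ N := one_add_mul_le_pow (by linarith) N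
  have h4 : 0 ≤ (1 - θ) ^ N := pow_nonneg (by linarith) N
  rw [le_div_iff₀ h0]
  nlinarith

variable {L : Type}

theorem class_bound {π : ι → Γ → ℝ} (hπ0 : ∀ j c, 0 ≤ π j c) (hπ1 : ∀ j, ∑ c, π j c = 1)
    (A : ι → Γ → L → ℝ) (hA0 : ∀ j c l, 0 ≤ A j c l) (hA1 : ∀ j c l, A j c l ≤ π j c)
    (ell : ι → (ι → Γ) → L) (hell : ∀ j c a, ell j (Function.update c j a) = ell j c)
    (z : ι → Γ → ℝ) (hz0 : ∀ j c, 0 ≤ z j c) {B : ℝ} (hB : 1 ≤ B)
    (hzB : ∀ j c, z j c ≤ B) (hz1 : ∀ j, ∑ c, π j c * z j c = 1)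
    {θ β : ℝ} (hθ : 0 < θ) (hθ1 : θ ≤ 1)
    (hβ : ∀ j l, ∑ c, π j c * (z j c * (if (1 - θ) * π j c < A j c l then 1 else 0)) ≤ β)
    (hN : 0 < Fintype.card ι) :
    ∑ c : ι → Γ, ∏ j, A j (c j) (ell j c) ≤
      β + B / (Fintype.card ι * θ) + √(B / Fintype.card ι) := by
  classical
  set N : ℝ := (Fintype.card ι : ℝ) with hNdef
  have hN0 : 0 < N := by rw [hNdef]; exact_mod_cast hN
  set G : (ι → Γ) → ℝ := fun c => ∏ j, A j (c j) (ell j c) with hG
  have hG0 : ∀ c, 0 ≤ G c := fun c => Finset.prod_nonneg fun j _ => hA0 j _ _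
  have hP0 : ∀ c, 0 ≤ P π c := fun c => P_nonneg hπ0 c
  have hG1 : ∀ c, G c ≤ P π c := fun c =>
    Finset.prod_le_prod (fun j _ => hA0 j _ _) fun j _ => hA1 j _ _
  set bad : ι → (ι → Γ) → Prop := fun j c => A j (c j) (ell j c) ≤ (1 - θ) * π j (c j) with hbad
  set Z : (ι → Γ) → ℝ := fun c => (∑ j, z j (c j)) / N with hZ
  -- the part with densities
  have hgood : ∀ j, ∑ c, P π c * (z j (c j) * (if bad j c then 0 else 1)) ≤ β := by
    intro j
    rw [← resample hπ1 j fun c => z j (c j) * (if bad j c then 0 else 1)]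
    have h2 : ∀ c : ι → Γ, ∑ a, π j a * (z j (Function.update c j a j) *
        (if bad j (Function.update c j a) then 0 else 1)) ≤ β := by
      intro c
      refine le_trans (le_of_eq ?_) (hβ j (ell j c))
      refine Finset.sum_congr rfl fun a _ => ?_
      simp only [hbad, Function.update_self, hell]
      congr 2
      by_cases h : A j a (ell j c) ≤ (1 - θ) * π j a
      · rw [if_pos h, if_neg (not_lt.2 h)]
      · rw [if_neg h, if_pos (not_le.1 h)]
    calc ∑ c, P π c * ∑ a, π j a * (z j (Function.update c j a j) *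
        (if bad j (Function.update c j a) then 0 else 1)) ≤ ∑ c, P π c * β :=
          Finset.sum_le_sum fun c _ => mul_le_mul_of_nonneg_left (h2 c) (hP0 c)
      _ = β := by rw [← Finset.sum_mul, sum_P hπ1, one_mul]
  have hmany : ∀ c, G c * ∑ j, (if bad j c then (1 : ℝ) else 0) ≤ P π c * (1 / θ) := by
    intro c
    set S := univ.filter fun j => bad j c with hS
    have h2 : ∑ j, (if bad j c then (1 : ℝ) else 0) = (S.card : ℝ) := by
      rw [hS, Finset.card_filter]
      push_cast
      rfl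
    have h3 : G c ≤ P π c * (1 - θ) ^ S.card := by
      have h4 : G c ≤ ∏ j, (π j (c j) * (if bad j c then (1 - θ) else 1)) := by
        refine Finset.prod_le_prod (fun j _ => hA0 j _ _) fun j _ => ?_
        by_cases h : bad j c
        · rw [if_pos h, mul_comm]
          exact h
        · rw [if_neg h, mul_one]
          exact hA1 j _ _
      refine h4.trans (le_of_eq ?_)
      rw [Finset.prod_mul_distrib, Finset.prod_ite, Finset.prod_const, Finset.prod_const_one,
        mul_one]
      rfl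
    rw [h2]
    have h5 := pow_bound hθ hθ1 S.card
    calc G c * (S.card : ℝ) ≤ (P π c * (1 - θ) ^ S.card) * S.card :=
          mul_le_mul_of_nonneg_right h3 (Nat.cast_nonneg _)
      _ = P π c * (S.card * (1 - θ) ^ S.card) := by ring
      _ ≤ P π c * (1 / θ) := mul_le_mul_of_nonneg_left h5 (hP0 c)
  have hGZ : ∑ c, G c * Z c ≤ β + B / (N * θ) := by
    have h2 : ∀ c, G c * ∑ j, z j (c j) ≤
        ∑ j, P π c * (z j (c j) * (if bad j c then 0 else 1)) + B * (P π c * (1 / θ)) := by
      intro c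
      have h3 : G c * ∑ j, z j (c j) ≤
          ∑ j, P π c * (z j (c j) * (if bad j c then 0 else 1)) +
            B * (G c * ∑ j, (if bad j c then (1 : ℝ) else 0)) := by
        rw [Finset.mul_sum, Finset.mul_sum, Finset.mul_sum, ← Finset.sum_add_distrib]
        refine Finset.sum_le_sum fun j _ => ?_
        by_cases h : bad j c
        · rw [if_pos h, if_pos h, mul_zero, mul_zero, zero_add, mul_one, mul_comm B]
          exact mul_le_mul_of_nonneg_left (hzB j _) (hG0 c)
        · rw [if_neg h, if_neg h, mul_zero, mul_zero, add_zero, mul_one]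
          exact mul_le_mul_of_nonneg_right (hG1 c) (hz0 j _)
      have h4 := mul_le_mul_of_nonneg_left (hmany c) (by linarith : 0 ≤ B)
      linarith
    have h5 : ∑ c, G c * ∑ j, z j (c j) ≤ N * β + B / θ := by
      refine (Finset.sum_le_sum fun c _ => h2 c).trans ?_
      rw [Finset.sum_add_distrib, Finset.sum_comm, ← Finset.mul_sum, ← Finset.sum_mul, sum_P hπ1]
      have h6 : ∑ j, ∑ c, P π c * (z j (c j) * (if bad j c then 0 else 1)) ≤ N * β := by
        refine (Finset.sum_le_sum fun j _ => hgood j).trans (le_of_eq ?_)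
        rw [Finset.sum_const, Finset.card_univ, nsmul_eq_mul]
      have h7 : B * (1 * (1 / θ)) = B / θ := by ring
      linarith
    have h8 : ∑ c, G c * Z c = (∑ c, G c * ∑ j, z j (c j)) / N := by
      rw [Finset.sum_div]
      refine Finset.sum_congr rfl fun c _ => ?_
      simp only [hZ]
      ring
    rw [h8, div_le_iff₀ hN0]
    have h9 : (β + B / (N * θ)) * N = N * β + B / θ := by
      field_simp
    linarith
  -- the variance
  have hvar1 : ∀ j, ∑ c, P π c * ((z j (c j) - 1) * (z j (c j) - 1)) ≤ B := by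
    intro j
    rw [mean_one hπ1 j fun a => (z j a - 1) * (z j a - 1)]
    have h2 : ∀ a, π j a * ((z j a - 1) * (z j a - 1)) ≤
        (B - 2) * (π j a * z j a) + π j a := by
      intro a
      have h3 : z j a * z j a ≤ B * z j a := mul_le_mul_of_nonneg_right (hzB j a) (hz0 j a)
      have h4 := mul_le_mul_of_nonneg_left h3 (hπ0 j a)
      nlinarith
    refine (Finset.sum_le_sum fun a _ => h2 a).trans ?_
    rw [Finset.sum_add_distrib, ← Finset.mul_sum, hz1 j, hπ1 j]
    linarith
  have hvar2 : ∀ i j, i ≠ j →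
      ∑ c, P π c * ((z i (c i) - 1) * (z j (c j) - 1)) = 0 := by
    intro i j hij
    refine mean_two hπ1 hij (fun a => z i a - 1) (fun a => z j a - 1) ?_
    have : ∑ a, π j a * (z j a - 1) = ∑ a, π j a * z j a - ∑ a, π j a := by
      rw [← Finset.sum_sub_distrib]
      exact Finset.sum_congr rfl fun a _ => by ring
    rw [this, hz1, hπ1, sub_self]
  have hvar : ∑ c, P π c * (1 - Z c) ^ 2 ≤ B / N := by
    have h2 : ∀ c, (1 - Z c) ^ 2 = (∑ i, ∑ j, (z i (c i) - 1) * (z j (c j) - 1)) / N ^ 2 := by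
      intro c
      have h3 : ∑ i, ∑ j, (z i (c i) - 1) * (z j (c j) - 1) =
          (∑ i, (z i (c i) - 1)) ^ 2 := by
        rw [pow_two, Finset.sum_mul_sum]
      have h4 : ∑ i, (z i (c i) - 1) = N * (Z c - 1) := by
        rw [Finset.sum_sub_distrib, Finset.sum_const, Finset.card_univ, nsmul_eq_mul, mul_one]
        simp only [hZ]
        field_simp
        rw [hNdef]
      rw [h3, h4]
      field_simp
      ring
    have h5 : ∑ c, P π c * (1 - Z c) ^ 2 =
        (∑ i, ∑ j, ∑ c, P π c * ((z i (c i) - 1) * (z j (c j) - 1))) / N ^ 2 := by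
      have h6 : ∀ c, P π c * (1 - Z c) ^ 2 =
          (∑ i, ∑ j, P π c * ((z i (c i) - 1) * (z j (c j) - 1))) / N ^ 2 := by
        intro c
        rw [h2 c, ← mul_div_assoc, Finset.mul_sum]
        simp only [Finset.mul_sum]
      rw [Finset.sum_congr rfl fun c _ => h6 c, ← Finset.sum_div, Finset.sum_comm]
      congr 1
      refine Finset.sum_congr rfl fun i _ => ?_
      rw [Finset.sum_comm]
    have h7 : ∑ i, ∑ j, ∑ c, P π c * ((z i (c i) - 1) * (z j (c j) - 1)) ≤ N * B := by
      have h8 : ∀ i, ∑ j, ∑ c, P π c * ((z i (c i) - 1) * (z j (c j) - 1)) ≤ B := by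
        intro i
        rw [Finset.sum_eq_single i]
        · exact hvar1 i
        · intro j _ hj
          exact hvar2 i j (Ne.symm hj)
        · intro h
          exact absurd (Finset.mem_univ i) h
      refine (Finset.sum_le_sum fun i _ => h8 i).trans (le_of_eq ?_)
      rw [Finset.sum_const, Finset.card_univ, nsmul_eq_mul]
    rw [h5, div_le_div_iff₀ (by positivity) hN0]
    nlinarith
  -- conclusion
  set t : ℝ := √(B / N) with ht
  have ht0 : 0 < t := Real.sqrt_pos.2 (by positivity)
  have ht2 : t ^ 2 = B / N := Real.sq_sqrt (by positivity)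
  have hG1Z : ∑ c, G c * (1 - Z c) ≤ t := by
    have h2 : ∀ c, G c * (1 - Z c) ≤ P π c * (t / 2) + (P π c * (1 - Z c) ^ 2) / (2 * t) := by
      intro c
      have h3 : 1 - Z c ≤ t / 2 + (1 - Z c) ^ 2 / (2 * t) := by
        have h4 : 0 ≤ (t - (1 - Z c)) ^ 2 / (2 * t) := by positivity
        have h5 : (t - (1 - Z c)) ^ 2 / (2 * t) =
            t / 2 + (1 - Z c) ^ 2 / (2 * t) - (1 - Z c) := by
          field_simp
          ring
        linarith
      have h6 : 0 ≤ t / 2 + (1 - Z c) ^ 2 / (2 * t) := by positivity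
      calc G c * (1 - Z c) ≤ G c * (t / 2 + (1 - Z c) ^ 2 / (2 * t)) :=
            mul_le_mul_of_nonneg_left h3 (hG0 c)
        _ ≤ P π c * (t / 2 + (1 - Z c) ^ 2 / (2 * t)) :=
            mul_le_mul_of_nonneg_right (hG1 c) h6
        _ = _ := by ring
    refine (Finset.sum_le_sum fun c _ => h2 c).trans ?_
    rw [Finset.sum_add_distrib, ← Finset.sum_mul, sum_P hπ1, ← Finset.sum_div, one_mul]
    have h7 : (∑ c, P π c * (1 - Z c) ^ 2) / (2 * t) ≤ (B / N) / (2 * t) :=
      div_le_div_of_nonneg_right hvar (by positivity)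
    have h8 : (B / N) / (2 * t) = t / 2 := by
      rw [← ht2]
      field_simp
    linarith
  have h9 : ∑ c, G c = ∑ c, G c * Z c + ∑ c, G c * (1 - Z c) := by
    rw [← Finset.sum_add_distrib]
    exact Finset.sum_congr rfl fun c _ => by ring
  rw [h9]
  linarith

end Pool.Agent.VB
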