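import Mathlib

/-!
# Greedy transversals with dual weights

A family of nonempty finite sets `S c`, `c ∈ T`, has a transversal `K` and nonnegative weights
`w` with `|K| ≤ ∑ w + |T| / D` such that the weights of the sets containing any given point add up
to at most the harmonic number `H D`.
-/

set_option autoImplicit false

open Finset

namespace Pool.Agent.VB

/-- harmonic numbers -/
noncomputable def H (n : ℕ) : ℝ := ∑ i ∈ range n, 1 / ((i : ℝ) + 1)

theorem H_mono {m n : ℕ} (h : m ≤ n) : H m ≤ H n := by
  unfold H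
  refine Finset.sum_le_sum_of_subset_of_nonneg (Finset.range_mono h) fun i _ _ => ?_
  positivity

theorem H_nonneg (n : ℕ) : 0 ≤ H n := Finset.sum_nonneg fun i _ => by positivity

theorem H_add {a b M : ℕ} (hM0 : 0 < M) (hM : a + b ≤ M) : H a + (b : ℝ) / M ≤ H (a + b) := by
  unfold H
  rw [Finset.sum_range_add]
  have h : (b : ℝ) / M ≤ ∑ x ∈ range b, 1 / (((a + x : ℕ) : ℝ) + 1) := by
    have h2 : ∀ x ∈ range b, (1 : ℝ) / M ≤ 1 / (((a + x : ℕ) : ℝ) + 1) := by
      intro x hx
      have hx' := Finset.mem_range.1 hx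
      apply one_div_le_one_div_of_le (by positivity)
      have : a + x + 1 ≤ M := by omega
      exact_mod_cast this
    have h3 := Finset.sum_le_sum h2
    rw [Finset.sum_const, Finset.card_range, nsmul_eq_mul] at h3
    calc (b : ℝ) / M = b * (1 / M) := by ring
      _ ≤ _ := h3
  linarith

theorem H_le_log {n : ℕ} : H n ≤ 1 + Real.log n := by
  have h := harmonic_le_one_add_log n
  have h2 : ((harmonic n : ℚ) : ℝ) = H n := by
    unfold harmonic H
    push_cast
    exact Finset.sum_congr rfl fun i _ => by rw [one_div]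
  rwa [h2] at h

variable {Γ L : Type} [DecidableEq Γ] [DecidableEq L]

theorem greedy (S : Γ → Finset L) (D : ℕ) (hD : 1 ≤ D) (T : Finset Γ) :
    (∀ c ∈ T, (S c).Nonempty) → ∃ (K : Finset L) (w : Γ → ℝ), (∀ c, 0 ≤ w c) ∧
      (∀ c, c ∉ T → w c = 0) ∧ (∀ c ∈ T, ∃ l ∈ K, l ∈ S c) ∧
      ((K.card : ℝ) ≤ ∑ c ∈ T, w c + (T.card : ℝ) / D) ∧
      ∀ l, (∑ c ∈ T, (if l ∈ S c then w c else 0)) ≤ H (T.filter fun c => l ∈ S c).card ∧
        (∑ c ∈ T, (if l ∈ S c then w c else 0)) ≤ H D := by
  induction T using Finset.strongInduction with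
  | H T ih =>
  intro hS
  rcases T.eq_empty_or_nonempty with h0 | h0
  · subst h0
    refine ⟨∅, fun _ => 0, fun _ => le_rfl, fun _ _ => rfl, fun c hc => ?_, ?_, fun l => ?_⟩
    · exact absurd hc (Finset.notMem_empty c)
    · simp
    · simp only [Finset.sum_empty]
      exact ⟨H_nonneg _, H_nonneg _⟩
  · have hU : (T.biUnion S).Nonempty := by
      obtain ⟨c, hc⟩ := h0
      obtain ⟨l, hl⟩ := hS c hc
      exact ⟨l, Finset.mem_biUnion.2 ⟨c, hc, hl⟩⟩
    obtain ⟨l0, hl0, hmax⟩ := Finset.exists_max_image (T.biUnion S)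
      (fun l => (T.filter fun c => l ∈ S c).card) hU
    set T0 := T.filter fun c => l0 ∈ S c with hT0
    set T' := T.filter fun c => ¬ l0 ∈ S c with hT'
    set M := T0.card with hM
    have hM0 : 0 < M := by
      obtain ⟨c, hc, hlc⟩ := Finset.mem_biUnion.1 hl0
      exact Finset.card_pos.2 ⟨c, Finset.mem_filter.2 ⟨hc, hlc⟩⟩
    have hmax' : ∀ l, (T.filter fun c => l ∈ S c).card ≤ M := by
      intro l
      by_cases hl : l ∈ T.biUnion S
      · exact hmax l hl
      · have : (T.filter fun c => l ∈ S c) = ∅ := by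
          rw [Finset.filter_eq_empty_iff]
          intro c hc hlc
          exact hl (Finset.mem_biUnion.2 ⟨c, hc, hlc⟩)
        rw [this, Finset.card_empty]
        exact Nat.zero_le _
    have hsplit : ∀ f : Γ → ℝ, ∑ c ∈ T, f c = ∑ c ∈ T0, f c + ∑ c ∈ T', f c := by
      intro f
      rw [hT0, hT', Finset.sum_filter_add_sum_filter_not]
    have hcard : (T.card : ℝ) = M + T'.card := by
      have := Finset.card_filter_add_card_filter_not (s := T) (fun c => l0 ∈ S c)
      rw [hM, hT0, hT']
      exact_mod_cast this.symm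
    have hsub : T' ⊂ T := by
      refine ⟨Finset.filter_subset _ _, fun h => ?_⟩
      obtain ⟨c, hc⟩ := Finset.card_pos.1 hM0
      have hc' := Finset.mem_filter.1 hc
      have := h hc'.1
      exact (Finset.mem_filter.1 this).2 hc'.2
    obtain ⟨K', w', hw0, hwT, hK, hKc, hstar⟩ := ih T' hsub fun c hc =>
      hS c (Finset.mem_of_mem_filter c hc)
    have hD0 : (0 : ℝ) < D := by exact_mod_cast hD
    have hM0' : (0 : ℝ) < M := by exact_mod_cast hM0
    have hK1 : ∀ c ∈ T, ∃ l ∈ insert l0 K', l ∈ S c := by
      intro c hc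
      by_cases h : l0 ∈ S c
      · exact ⟨l0, Finset.mem_insert_self _ _, h⟩
      · obtain ⟨l, hl, hlc⟩ := hK c (Finset.mem_filter.2 ⟨hc, h⟩)
        exact ⟨l, Finset.mem_insert_of_mem hl, hlc⟩
    have hK2 : ((insert l0 K').card : ℝ) ≤ K'.card + 1 := by
      exact_mod_cast Finset.card_insert_le l0 K'
    have hstarT : ∀ l, (T'.filter fun c => l ∈ S c).card + (T0.filter fun c => l ∈ S c).card
        = (T.filter fun c => l ∈ S c).card := by
      intro l
      have h1 : (T.filter fun c => l ∈ S c) =
          (T'.filter fun c => l ∈ S c) ∪ (T0.filter fun c => l ∈ S c) := by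
        ext c
        simp only [hT', hT0, Finset.mem_union, Finset.mem_filter]
        tauto
      rw [h1, Finset.card_union_of_disjoint]
      rw [Finset.disjoint_left]
      intro c h2 h3
      simp only [hT', hT0, Finset.mem_filter] at h2 h3
      exact h2.1.2 h3.1.2
    rcases le_or_gt D M with hDM | hDM
    · -- the star is dropped
      have hz : ∀ c ∈ T0, w' c = 0 := by
        intro c hc
        apply hwT
        intro h
        exact (Finset.mem_filter.1 h).2 (Finset.mem_filter.1 hc).2
      refine ⟨insert l0 K', w', hw0, fun c hc => hwT c fun h => hc (Finset.mem_of_mem_filter c h),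
        hK1, ?_, fun l => ?_⟩
      · rw [hsplit w', Finset.sum_eq_zero hz, zero_add, hcard, add_div]
        have h1 : (1 : ℝ) ≤ (M : ℝ) / D := by
          rw [le_div_iff₀ hD0, one_mul]
          exact_mod_cast hDM
        linarith
      · have h1 : ∑ c ∈ T, (if l ∈ S c then w' c else 0) =
            ∑ c ∈ T', (if l ∈ S c then w' c else 0) := by
          rw [hsplit, Finset.sum_eq_zero (s := T0), zero_add]
          intro c hc
          rw [hz c hc, ite_self]
        rw [h1]
        refine ⟨(hstar l).1.trans (H_mono ?_), (hstar l).2⟩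
        rw [← hstarT l]
        exact Nat.le_add_right _ _
    · -- the star gets total weight one
      set w : Γ → ℝ := fun c => if c ∈ T0 then 1 / (M : ℝ) else w' c with hw
      have hwT0 : ∀ c ∈ T0, w c = 1 / (M : ℝ) := fun c hc => by
        simp only [hw, if_pos hc]
      have hwT' : ∀ c ∈ T', w c = w' c := by
        intro c hc
        have : c ∉ T0 := fun h => (Finset.mem_filter.1 hc).2 (Finset.mem_filter.1 h).2
        simp only [hw, if_neg this]
      have hl : ∀ l, ∑ c ∈ T, (if l ∈ S c then w c else 0) ≤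
          H (T.filter fun c => l ∈ S c).card := by
        intro l
        rw [hsplit]
        have h1 : ∑ c ∈ T0, (if l ∈ S c then w c else 0) =
            ((T0.filter fun c => l ∈ S c).card : ℝ) / M := by
          rw [← Finset.sum_filter, Finset.sum_congr rfl fun c hc =>
            hwT0 c (Finset.mem_of_mem_filter c hc), Finset.sum_const, nsmul_eq_mul]
          ring
        have h2 : ∑ c ∈ T', (if l ∈ S c then w c else 0) =
            ∑ c ∈ T', (if l ∈ S c then w' c else 0) :=
          Finset.sum_congr rfl fun c hc => by rw [hwT' c hc]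
        rw [h1, h2, ← hstarT l]
        have h3 := H_add (a := (T'.filter fun c => l ∈ S c).card)
          (b := (T0.filter fun c => l ∈ S c).card) hM0 (by rw [hstarT l]; exact hmax' l)
        have h4 := (hstar l).1
        linarith
      refine ⟨insert l0 K', w, fun c => ?_, fun c hc => ?_, hK1, ?_, fun l => ⟨hl l, ?_⟩⟩
      · simp only [hw]
        split_ifs
        · positivity
        · exact hw0 c
      · have h1 : c ∉ T0 := fun h => hc (Finset.mem_of_mem_filter c h)
        simp only [hw, if_neg h1]
        exact hwT c fun h => hc (Finset.mem_of_mem_filter c h)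
      · have h1 : ∑ c ∈ T0, w c = 1 := by
          rw [Finset.sum_congr rfl hwT0, Finset.sum_const, nsmul_eq_mul, ← hM]
          field_simp
        have h2 : ∑ c ∈ T', w c = ∑ c ∈ T', w' c := Finset.sum_congr rfl hwT'
        rw [hsplit w, h1, h2, hcard, add_div]
        have h3 : (0 : ℝ) ≤ (M : ℝ) / D := by positivity
        linarith
      · refine (hl l).trans (H_mono ?_)
        exact (hmax' l).trans hDM.le

end Pool.Agent.VB
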