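import Mathlib

/-!
# Transversals of the likely black hats

`wt g c` is the probability of the class `c` of stacks, `bl g c l` the probability of the class `c`
together with a black hat at `l`.
-/

set_option autoImplicit false

open Finset

namespace Pool.Agent.VB

variable {k r : ℕ}

/-- probability of the class `c` -/
noncomputable def wt (g : (Fin k → Bool) → Fin r) (c : Fin r) : ℝ :=
  ((univ.filter fun z => g z = c).card : ℝ) / 2 ^ k

/-- probability of the class `c` together with a black hat at `l` -/
noncomputable def bl (g : (Fin k → Bool) → Fin r) (c : Fin r) (l : Fin k) : ℝ :=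
  ((univ.filter fun z => g z = c ∧ z l = true).card : ℝ) / 2 ^ k

theorem wt_nonneg (g : (Fin k → Bool) → Fin r) (c : Fin r) : 0 ≤ wt g c := by
  unfold wt; positivity

theorem bl_nonneg (g : (Fin k → Bool) → Fin r) (c : Fin r) (l : Fin k) : 0 ≤ bl g c l := by
  unfold bl; positivity

theorem bl_le (g : (Fin k → Bool) → Fin r) (c : Fin r) (l : Fin k) : bl g c l ≤ wt g c := by
  unfold bl wt
  apply div_le_div_of_nonneg_right _ (by positivity)
  have : (univ.filter fun z => g z = c ∧ z l = true) ⊆ univ.filter fun z => g z = c := by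
    intro z hz
    rw [Finset.mem_filter] at hz ⊢
    exact ⟨hz.1, hz.2.1⟩
  exact_mod_cast Finset.card_le_card this

theorem sum_wt (g : (Fin k → Bool) → Fin r) : ∑ c, wt g c = 1 := by
  unfold wt
  rw [← Finset.sum_div]
  have h : ∑ c : Fin r, ((univ.filter fun z => g z = c).card : ℝ) = 2 ^ k := by
    have h1 := Finset.card_eq_sum_card_fiberwise (s := (univ : Finset (Fin k → Bool)))
      (t := (univ : Finset (Fin r))) (f := g) (fun _ _ => Finset.mem_univ _)
    have h2 : (univ : Finset (Fin k → Bool)).card = 2 ^ k := by simp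
    rw [h2] at h1
    exact_mod_cast h1.symm
  rw [h, div_self (by positivity)]

/-- number of stacks which are white on `K` -/
theorem card_white (K : Finset (Fin k)) :
    (univ.filter fun z : Fin k → Bool => ∀ l ∈ K, z l = false).card * 2 ^ K.card = 2 ^ k := by
  have h1 : (univ.filter fun z : Fin k → Bool => ∀ l ∈ K, z l = false) =
      Fintype.piFinset fun l => if l ∈ K then {false} else univ := by
    ext z
    simp only [Finset.mem_filter, Finset.mem_univ, true_and, Fintype.mem_piFinset]
    refine forall_congr' fun l => ?_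
    by_cases hl : l ∈ K
    · simp [hl]
    · simp [hl]
  have h2 : (∏ l : Fin k, if l ∈ K then 1 else 2) * 2 ^ K.card = 2 ^ k := by
    have h3 : (2 : ℕ) ^ K.card = ∏ l : Fin k, if l ∈ K then 2 else 1 := by
      rw [Finset.prod_ite_mem, Finset.univ_inter, Finset.prod_const]
    rw [h3, ← Finset.prod_mul_distrib]
    have h4 : ∀ l : Fin k, (if l ∈ K then 1 else 2) * (if l ∈ K then 2 else 1) = 2 := by
      intro l
      split_ifs <;> rfl
    simp only [h4, Finset.prod_const, Finset.card_univ, Fintype.card_fin]
  rw [h1, Fintype.card_piFinset]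
  rw [← h2]
  congr 1
  refine Finset.prod_congr rfl fun l _ => ?_
  by_cases hl : l ∈ K
  · simp [hl]
  · simp [hl]

/-- a set of labels which meets `{l | bl g c l > (1 - θ) wt g c}` for all classes `c` of weight
more than `δ` is large -/
theorem transversal (g : (Fin k → Bool) → Fin r) {θ δ : ℝ} (hδ : 0 ≤ δ) (hθ : 0 ≤ θ)
    (K : Finset (Fin k)) (T : Finset (Fin r)) (hT : ∀ c, c ∉ T → wt g c ≤ δ)
    (hK : ∀ c ∈ T, ∃ l ∈ K, (1 - θ) * wt g c < bl g c l) :
    1 ≤ 2 ^ K.card * (r * δ + θ) := by
  set Wh := univ.filter fun z : Fin k → Bool => ∀ l ∈ K, z l = false with hWh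
  have h2k : (0 : ℝ) < 2 ^ k := by positivity
  have h1 : (Wh.card : ℝ) / 2 ^ k ≤ ∑ c : Fin r, (δ + θ * wt g c) := by
    have h2 := Finset.card_eq_sum_card_fiberwise (s := Wh)
      (t := (univ : Finset (Fin r))) (f := g) (fun _ _ => Finset.mem_univ _)
    rw [h2]
    push_cast
    rw [Finset.sum_div]
    refine Finset.sum_le_sum fun c _ => ?_
    have hw := wt_nonneg g c
    by_cases hc : c ∈ T
    · obtain ⟨l, hl, hlc⟩ := hK c hc
      have h3 : ((Wh.filter fun z => g z = c).card : ℝ) +
          ((univ.filter fun z => g z = c ∧ z l = true).card : ℝ) ≤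
          ((univ.filter fun z => g z = c).card : ℝ) := by
        rw [← Nat.cast_add, ← Finset.card_union_of_disjoint]
        · refine Nat.cast_le.2 (Finset.card_le_card ?_)
          intro z hz
          rw [Finset.mem_filter]
          rcases Finset.mem_union.1 hz with hz | hz
          · exact ⟨Finset.mem_univ _, (Finset.mem_filter.1 hz).2⟩
          · exact ⟨Finset.mem_univ _, (Finset.mem_filter.1 hz).2.1⟩
        · rw [Finset.disjoint_left]
          intro z hz hz'
          have h4 := (Finset.mem_filter.1 (Finset.mem_of_mem_filter z hz)).2 l hl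
          have h5 := (Finset.mem_filter.1 hz').2.2
          rw [h4] at h5
          exact Bool.false_ne_true h5
      have h6 : ((Wh.filter fun z => g z = c).card : ℝ) / 2 ^ k + bl g c l ≤ wt g c := by
        unfold bl wt
        rw [← add_div]
        exact div_le_div_of_nonneg_right h3 h2k.le
      linarith
    · have h3 : ((Wh.filter fun z => g z = c).card : ℝ) / 2 ^ k ≤ wt g c := by
        unfold wt
        refine div_le_div_of_nonneg_right ?_ h2k.le
        refine Nat.cast_le.2 (Finset.card_le_card ?_)
        intro z hz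
        rw [Finset.mem_filter] at hz ⊢
        exact ⟨Finset.mem_univ _, hz.2⟩
      have h4 := hT c hc
      have h5 : 0 ≤ θ * wt g c := mul_nonneg hθ hw
      linarith
  rw [Finset.sum_add_distrib, ← Finset.mul_sum, sum_wt, Finset.sum_const, Finset.card_univ,
    Fintype.card_fin, nsmul_eq_mul, mul_one] at h1
  have h7 : (Wh.card : ℝ) * 2 ^ K.card = 2 ^ k := by exact_mod_cast card_white K
  have h8 : (Wh.card : ℝ) / 2 ^ k * 2 ^ K.card = 1 := by
    rw [div_mul_eq_mul_div, h7, div_self h2k.ne']
  have h9 := mul_le_mul_of_nonneg_left h1 (by positivity : (0 : ℝ) ≤ 2 ^ K.card)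
  linarith

end Pool.Agent.VB
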