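import Pool.Agent.Lib_MP_d91c53_vb.Class
import Pool.Agent.Lib_MP_d91c53_vb.Greedy
import Pool.Agent.Lib_MP_d91c53_vb.Trans

/-!
# A group of players who see only a signal of each other's stacks
-/

set_option autoImplicit false

open Finset

namespace Pool.Agent.VB

variable {k r : ℕ}

/-- densities for one player: no label is likely to be almost surely black -/
theorem weights (g : (Fin k → Bool) → Fin r) {B θ W : ℝ} {D : ℕ} (hB : 1 ≤ B) (hθ : 0 ≤ θ)
    (hD : 1 ≤ D) (hW : 0 < W)
    (hlen : ∀ K : Finset (Fin k), 1 ≤ 2 ^ K.card * (r * (1 / B) + θ) →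
      W + (r : ℝ) / D ≤ K.card) :
    ∃ z : Fin r → ℝ, (∀ c, 0 ≤ z c) ∧ (∀ c, z c ≤ B) ∧ (∑ c, wt g c * z c = 1) ∧
      ∀ l, ∑ c, wt g c * (z c * (if (1 - θ) * wt g c < bl g c l then 1 else 0)) ≤ H D / W := by
  classical
  have hB0 : 0 < B := by linarith
  have hD0 : (0 : ℝ) < D := by exact_mod_cast hD
  set T : Finset (Fin r) := univ.filter fun c => 1 / B < wt g c with hT
  set S : Fin r → Finset (Fin k) := fun c => univ.filter fun l => (1 - θ) * wt g c < bl g c l
    with hS
  have hmemS : ∀ c l, l ∈ S c ↔ (1 - θ) * wt g c < bl g c l := fun c l => by simp [hS]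
  have hT1 : ∀ c ∈ T, 1 / B < wt g c := fun c hc => (Finset.mem_filter.1 hc).2
  have hT2 : ∀ c, c ∉ T → wt g c ≤ 1 / B := by
    intro c hc
    by_contra h
    exact hc (Finset.mem_filter.2 ⟨Finset.mem_univ _, not_le.1 h⟩)
  have hTpos : ∀ c ∈ T, 0 < wt g c := fun c hc => lt_trans (by positivity) (hT1 c hc)
  have hTinv : ∀ c ∈ T, 1 / wt g c ≤ B := by
    intro c hc
    rw [div_le_iff₀ (hTpos c hc)]
    have := hT1 c hc
    rw [div_lt_iff₀ hB0] at this
    linarith
  by_cases hcase : ∀ c ∈ T, (S c).Nonempty
  · obtain ⟨K, w, hw0, hwT, hK, hKc, hstar⟩ := greedy S D hD T hcase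
    have h1 := transversal g (by positivity : (0 : ℝ) ≤ 1 / B) hθ K T hT2 fun c hc => by
      obtain ⟨l, hl, hlc⟩ := hK c hc
      exact ⟨l, hl, (hmemS c l).1 hlc⟩
    have h2 := hlen K h1
    have hTr : (T.card : ℝ) ≤ r := by
      have := Finset.card_le_univ T
      rw [Fintype.card_fin] at this
      exact_mod_cast this
    have hTr2 : (T.card : ℝ) / D ≤ (r : ℝ) / D := div_le_div_of_nonneg_right hTr hD0.le
    set Ws := ∑ c ∈ T, w c with hWs
    have hWW : W ≤ Ws := by linarith
    have hWs0 : 0 < Ws := by linarith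
    have hprod : ∀ c, wt g c * (w c / (Ws * wt g c)) = w c / Ws := by
      intro c
      by_cases hc : c ∈ T
      · have := hTpos c hc
        field_simp
      · rw [hwT c hc]
        simp
    refine ⟨fun c => w c / (Ws * wt g c), fun c => ?_, fun c => ?_, ?_, fun l => ?_⟩
    · exact div_nonneg (hw0 c) (mul_nonneg hWs0.le (wt_nonneg g c))
    · beta_reduce
      by_cases hc : c ∈ T
      · have h3 : w c ≤ Ws := Finset.single_le_sum (fun c _ => hw0 c) hc
        have h4 : w c / (Ws * wt g c) = (w c / Ws) * (1 / wt g c) := by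
          have := hTpos c hc
          field_simp
        rw [h4]
        have h5 : w c / Ws ≤ 1 := (div_le_one hWs0).2 h3
        calc (w c / Ws) * (1 / wt g c) ≤ 1 * B := by
              apply mul_le_mul h5 (hTinv c hc) _ zero_le_one
              have := hTpos c hc
              positivity
          _ = B := one_mul B
      · rw [hwT c hc, zero_div]
        exact hB0.le
    · simp only [hprod]
      rw [← Finset.sum_div]
      have h3 : ∑ c, w c = Ws := by
        rw [hWs]
        symm
        exact Finset.sum_subset (Finset.subset_univ T) fun c _ hc => hwT c hc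
      rw [h3, div_self hWs0.ne']
    · have h3 : ∀ c, wt g c * (w c / (Ws * wt g c) *
          (if (1 - θ) * wt g c < bl g c l then 1 else 0)) =
          (if l ∈ S c then w c else 0) / Ws := by
        intro c
        rw [← mul_assoc, hprod c]
        by_cases hc : l ∈ S c
        · rw [if_pos hc, if_pos ((hmemS c l).1 hc), mul_one]
        · rw [if_neg hc, if_neg fun h => hc ((hmemS c l).2 h), mul_zero, zero_div]
      rw [Finset.sum_congr rfl fun c _ => h3 c, ← Finset.sum_div]
      have h4 : ∑ c, (if l ∈ S c then w c else 0) = ∑ c ∈ T, (if l ∈ S c then w c else 0) := by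
        symm
        refine Finset.sum_subset (Finset.subset_univ T) fun c _ hc => ?_
        rw [hwT c hc, ite_self]
      rw [h4]
      calc (∑ c ∈ T, (if l ∈ S c then w c else 0)) / Ws ≤ H D / Ws :=
            div_le_div_of_nonneg_right (hstar l).2 hWs0.le
        _ ≤ H D / W := div_le_div_of_nonneg_left (H_nonneg D) hW hWW
  · push Not at hcase
    obtain ⟨c0, hc0, hS0⟩ := hcase
    have hpos := hTpos c0 hc0
    refine ⟨fun c => if c = c0 then 1 / wt g c0 else 0, fun c => ?_, fun c => ?_, ?_,
      fun l => ?_⟩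
    · beta_reduce
      split_ifs
      · positivity
      · exact le_rfl
    · beta_reduce
      split_ifs
      · exact hTinv c0 hc0
      · exact hB0.le
    · beta_reduce
      rw [Finset.sum_eq_single c0]
      · rw [if_pos rfl]
        field_simp
      · intro c _ hc
        rw [if_neg hc, mul_zero]
      · intro h
        exact absurd (Finset.mem_univ _) h
    · beta_reduce
      rw [Finset.sum_eq_zero]
      · exact div_nonneg (H_nonneg D) hW.le
      · intro c _
        by_cases hc : c = c0
        · have h4 : ¬ (1 - θ) * wt g c < bl g c l := by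
            intro h
            have h3 : l ∈ S c := (hmemS c l).2 h
            rw [hc, hS0] at h3
            exact Finset.notMem_empty l h3
          rw [if_neg h4, mul_zero, mul_zero]
        · rw [if_neg hc, zero_mul, mul_zero]

variable {ι : Type} [Fintype ι] [DecidableEq ι]

/-- the number of winning positions -/
theorem count (g : ι → (Fin k → Bool) → Fin r) (ell : ι → (ι → Fin r) → Fin k) :
    ((univ.filter fun x : ι → Fin k → Bool =>
      ∀ i, x i (ell i fun j => g j (x j)) = true).card : ℝ) =
      (∑ c : ι → Fin r, ∏ j, bl (g j) (c j) (ell j c)) * (2 ^ k) ^ Fintype.card ι := by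
  classical
  set A := univ.filter fun x : ι → Fin k → Bool =>
      ∀ i, x i (ell i fun j => g j (x j)) = true with hA
  have h1 := Finset.card_eq_sum_card_fiberwise (s := A)
    (t := (univ : Finset (ι → Fin r))) (f := fun x j => g j (x j)) (fun _ _ => Finset.mem_univ _)
  rw [h1]
  push_cast
  rw [Finset.sum_mul]
  refine Finset.sum_congr rfl fun c _ => ?_
  have h2 : (A.filter fun x => (fun j => g j (x j)) = c) =
      Fintype.piFinset fun j => univ.filter fun z => g j z = c j ∧ z (ell j c) = true := by
    ext x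
    simp only [hA, Finset.mem_filter, Finset.mem_univ, true_and, Fintype.mem_piFinset]
    constructor
    · rintro ⟨h3, h4⟩ j
      refine ⟨congrFun h4 j, ?_⟩
      have := h3 j
      rwa [h4] at this
    · intro h3
      have h4 : (fun j => g j (x j)) = c := funext fun j => (h3 j).1
      refine ⟨fun i => ?_, h4⟩
      rw [h4]
      exact (h3 i).2
  rw [h2, Fintype.card_piFinset]
  push_cast
  unfold bl
  rw [Finset.prod_div_distrib, Finset.prod_const, Finset.card_univ,
    div_mul_cancel₀ _ (pow_ne_zero _ (pow_ne_zero _ two_ne_zero))]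

/-- the bound for one group -/
theorem group_bound (hN : 2 ≤ Fintype.card ι) (hr : 0 < r)
    (g : ι → (Fin k → Bool) → Fin r) (ell : ι → (ι → Fin r) → Fin k)
    (hell : ∀ i c a, ell i (Function.update c i a) = ell i c) :
    ((univ.filter fun x : ι → Fin k → Bool =>
      ∀ i, x i (ell i fun j => g j (x j)) = true).card : ℝ) ≤
      50 * (1 + Real.log (1 + r / Real.log (Fintype.card ι))) / Real.log (Fintype.card ι) *
        (2 ^ k) ^ Fintype.card ι := by
  classical
  set N := Fintype.card ι with hNdef
  have hN1 : (1 : ℝ) < N := by exact_mod_cast (by omega : 1 < N)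
  set lam := Real.log (N : ℝ) with hlam
  have hlam0 : 0 < lam := Real.log_pos hN1
  have hr0 : (0 : ℝ) < r := by exact_mod_cast hr
  set el := Real.log (1 + r / lam) with hel
  have hrl : 0 < r / lam := by positivity
  have hel0 : 0 ≤ el := Real.log_nonneg (by linarith)
  have hbig : (0 : ℝ) < (2 ^ k) ^ N := by positivity
  have htriv : ((univ.filter fun x : ι → Fin k → Bool =>
      ∀ i, x i (ell i fun j => g j (x j)) = true).card : ℝ) ≤ (2 ^ k) ^ N := by
    have h1 := Finset.card_le_univ (univ.filter fun x : ι → Fin k → Bool =>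
      ∀ i, x i (ell i fun j => g j (x j)) = true)
    have h2 : Fintype.card (ι → Fin k → Bool) = (2 ^ k) ^ N := by
      simp [hNdef]
    rw [h2] at h1
    exact_mod_cast h1
  -- it is enough to bound the probability or to see that the bound is trivial
  rcases lt_or_ge lam 50 with hsmall | hlarge
  · have h1 : 1 ≤ 50 * (1 + el) / lam := by
      rw [le_div_iff₀ hlam0]
      nlinarith
    nlinarith
  set t := Real.exp (lam / 4) with ht
  have ht0 : 0 < t := Real.exp_pos _
  have ht1 : 1 + lam / 4 ≤ t := by
    have := Real.add_one_le_exp (lam / 4)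
    linarith
  have ht4 : t ^ 4 = N := by
    rw [ht, ← Real.exp_nat_mul]
    have : ((4 : ℕ) : ℝ) * (lam / 4) = lam := by push_cast; ring
    rw [this, hlam, Real.exp_log (by linarith)]
  have hlogt : Real.log t = lam / 4 := Real.log_exp _
  rcases lt_or_ge t (r : ℝ) with hrt | hrt
  · have h1 : lam / 4 - Real.log lam ≤ el := by
      rw [← hlogt, ← Real.log_div ht0.ne' hlam0.ne', hel]
      apply Real.log_le_log (by positivity)
      have : t / lam ≤ r / lam := div_le_div_of_nonneg_right hrt.le hlam0.le
      linarith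
    have h2 : Real.log lam ≤ lam / 16 + 1.8 := by
      have h3 := Real.log_le_sub_one_of_pos (show 0 < lam / 16 by positivity)
      rw [Real.log_div hlam0.ne' (by norm_num)] at h3
      have h4 : Real.log 16 = 4 * Real.log 2 := by
        rw [show (16 : ℝ) = 2 ^ 4 by norm_num, Real.log_pow]
        push_cast
        ring
      have h5 := Real.log_two_lt_d9
      rw [h4] at h3
      linarith
    have h1 : 1 ≤ 50 * (1 + el) / lam := by
      rw [le_div_iff₀ hlam0]
      nlinarith
    nlinarith
  -- main case
  set D := ⌈6 * (r : ℝ) / lam⌉₊ with hD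
  have hD1 : 1 ≤ D := Nat.one_le_iff_ne_zero.2 (by
    rw [hD]
    exact (Nat.ceil_pos.2 (by positivity)).ne')
  have hD0 : (0 : ℝ) < D := by exact_mod_cast hD1
  have hDge : 6 * (r : ℝ) / lam ≤ D := Nat.le_ceil _
  have hDle : (D : ℝ) ≤ 6 * (r : ℝ) / lam + 1 := (Nat.ceil_lt_add_one (by positivity)).le
  have hrD : (r : ℝ) / D ≤ lam / 6 := by
    rw [div_le_iff₀ hD0]
    rw [div_le_iff₀ hlam0] at hDge
    nlinarith
  have ht2 : 1 ≤ t ^ 2 := by nlinarith
  have hlen : ∀ K : Finset (Fin k), 1 ≤ 2 ^ K.card * ((r : ℝ) * (1 / t ^ 2) + 1 / t) →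
      lam / 6 + (r : ℝ) / D ≤ K.card := by
    intro K hK
    have h1 : (r : ℝ) * (1 / t ^ 2) + 1 / t ≤ 2 / t := by
      have h2 : (r : ℝ) * (1 / t ^ 2) ≤ t * (1 / t ^ 2) :=
        mul_le_mul_of_nonneg_right hrt (by positivity)
      have h3 : t * (1 / t ^ 2) = 1 / t := by field_simp
      have h4 : (2 : ℝ) / t = 1 / t + 1 / t := by ring
      linarith
    have h2 : 1 ≤ (2 : ℝ) ^ K.card * (2 / t) :=
      hK.trans (mul_le_mul_of_nonneg_left h1 (by positivity))
    have h3 : t ≤ 2 ^ (K.card + 1) := by
      have h4 : (2 : ℝ) ^ K.card * (2 / t) = 2 ^ (K.card + 1) / t := by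
        rw [pow_succ]
        ring
      rw [h4, le_div_iff₀ ht0, one_mul] at h2
      exact h2
    have h5 := Real.log_le_log ht0 h3
    rw [hlogt, Real.log_pow] at h5
    push_cast at h5
    have h6 := Real.log_two_lt_d9
    have h7 : (0 : ℝ) ≤ (K.card : ℝ) := Nat.cast_nonneg _
    have h8 : ((K.card : ℝ) + 1) * Real.log 2 ≤ ((K.card : ℝ) + 1) * 0.6931471808 :=
      mul_le_mul_of_nonneg_left h6.le (by linarith)
    by_contra hneg
    push Not at hneg
    nlinarith
  have hz : ∀ j, ∃ z : Fin r → ℝ, (∀ c, 0 ≤ z c) ∧ (∀ c, z c ≤ t ^ 2) ∧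
      (∑ c, wt (g j) c * z c = 1) ∧ ∀ l, ∑ c, wt (g j) c *
        (z c * (if (1 - 1 / t) * wt (g j) c < bl (g j) c l then 1 else 0)) ≤ H D / (lam / 6) :=
    fun j => weights (g j) ht2 (by positivity) hD1 (by positivity) hlen
  choose z hz0 hzB hz1 hzβ using hz
  have ht1' : 1 ≤ t := by linarith
  have hmain := class_bound (π := fun j => wt (g j)) (fun j c => wt_nonneg (g j) c)
    (fun j => sum_wt (g j)) (fun j c l => bl (g j) c l) (fun j c l => bl_nonneg (g j) c l)
    (fun j c l => bl_le (g j) c l) ell hell z hz0 ht2 hzB hz1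
    (θ := 1 / t) (β := H D / (lam / 6)) (by positivity) ((div_le_one ht0).2 ht1') hzβ
    (by omega)
  have e1 : t ^ 2 / ((Fintype.card ι : ℝ) * (1 / t)) = 1 / t := by
    rw [← hNdef, ← ht4]
    field_simp
  have e2 : √(t ^ 2 / (Fintype.card ι : ℝ)) = 1 / t := by
    rw [← hNdef, ← ht4]
    have : t ^ 2 / t ^ 4 = (1 / t) ^ 2 := by field_simp
    rw [this, Real.sqrt_sq (by positivity)]
  rw [e1, e2] at hmain
  have hHD : H D ≤ 3.1 + el := by
    have h1 := H_le_log (n := D)
    have h2 : Real.log D ≤ Real.log (8 * (1 + r / lam)) := by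
      apply Real.log_le_log hD0
      have : 6 * (r : ℝ) / lam = 6 * (r / lam) := by ring
      rw [this] at hDle
      linarith
    rw [Real.log_mul (by norm_num) (by positivity)] at h2
    have h4 : Real.log 8 = 3 * Real.log 2 := by
      rw [show (8 : ℝ) = 2 ^ 3 by norm_num, Real.log_pow]
      push_cast
      ring
    have h5 := Real.log_two_lt_d9
    rw [h4] at h2
    linarith
  have hfin : ∑ c : ι → Fin r, ∏ j, bl (g j) (c j) (ell j c) ≤ 50 * (1 + el) / lam := by
    refine hmain.trans ?_
    have h1 : 1 / t ≤ 4 / lam := by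
      rw [div_le_div_iff₀ ht0 hlam0]
      linarith
    have h2 : H D / (lam / 6) ≤ 6 * (3.1 + el) / lam := by
      have : H D / (lam / 6) = 6 * H D / lam := by field_simp
      rw [this]
      apply div_le_div_of_nonneg_right _ hlam0.le
      linarith
    have h3 : 6 * (3.1 + el) / lam + 4 / lam + 4 / lam ≤ 50 * (1 + el) / lam := by
      rw [← add_div, ← add_div]
      apply div_le_div_of_nonneg_right _ hlam0.le
      nlinarith
    linarith
  rw [count g ell, ← hNdef]
  exact mul_le_mul_of_nonneg_right hfin hbig.le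

end Pool.Agent.VB
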